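import Pool.Agent.Y787.FV.Stm

/-!
# Existence of free lattices in every variety of lattices
-/

namespace Pool.Agent.Y765.FV

open Pool.Agent.Y787.FV

universe w

/-- The order of terms in the variety of all lattices satisfying `E`. -/
def Le (E : Set (Term.{0} ℕ × Term.{0} ℕ)) {X : Type w} (s t : Term X) : Prop :=
  ∀ (L : Type w) [Lattice L], Satisfies E L → ∀ f : X → L, Term.ev f s ≤ Term.ev f t

/-- Terms, with the order given by `E`. -/
def TM (_ : Set (Term.{0} ℕ × Term.{0} ℕ)) (X : Type w) : Type w := Term X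

instance tmPreorder (E : Set (Term.{0} ℕ × Term.{0} ℕ)) (X : Type w) : Preorder (TM E X) where
  le s t := Le E s t
  le_refl _ := fun _ _ _ _ => le_rfl
  le_trans _ _ _ h1 h2 := fun L _ hL f => (h1 L hL f).trans (h2 L hL f)

/-- The free lattice on `X` in the variety of `E`. -/
def FL (E : Set (Term.{0} ℕ × Term.{0} ℕ)) (X : Type w) : Type w :=
  Antisymmetrization (TM E X) (· ≤ ·)

instance (E : Set (Term.{0} ℕ × Term.{0} ℕ)) (X : Type w) : PartialOrder (FL E X) :=
  inferInstanceAs (PartialOrder (Antisymmetrization (TM E X) _))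

variable (E : Set (Term.{0} ℕ × Term.{0} ℕ)) {X : Type w}

/-- The class of a term. -/
def cl (t : Term X) : FL E X := toAntisymmetrization (α := TM E X) (· ≤ ·) t

variable {E}

theorem cl_le {s t : Term X} : cl E s ≤ cl E t ↔ Le E s t := Iff.rfl

theorem cl_surj (a : FL E X) : ∃ t : Term X, cl E t = a := by
  induction a using Quotient.inductionOn with
  | h t => exact ⟨t, rfl⟩

/-- A chosen term representing an element. -/
noncomputable def rep (a : FL E X) : Term X := (cl_surj a).choose

theorem cl_rep (a : FL E X) : cl E (rep a) = a := (cl_surj a).choose_spec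

theorem rep_le {a b : FL E X} : Le E (rep a) (rep b) ↔ a ≤ b := by
  rw [← cl_le, cl_rep, cl_rep]

theorem rep_cl_le (t : Term X) : Le E (rep (cl E t)) t := by
  rw [← cl_le, cl_rep]

theorem le_rep_cl (t : Term X) : Le E t (rep (cl E t)) := by
  rw [← cl_le, cl_rep]

theorem Le.trans {s t r : Term X} (h1 : Le E s t) (h2 : Le E t r) : Le E s r :=
  fun L _ hL f => (h1 L hL f).trans (h2 L hL f)

theorem Le.sup_left (s t : Term X) : Le E s (.sup s t) := fun _ _ _ _ => _root_.le_sup_left

theorem Le.sup_right (s t : Term X) : Le E t (.sup s t) := fun _ _ _ _ => _root_.le_sup_right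

theorem Le.inf_left (s t : Term X) : Le E (.inf s t) s := fun _ _ _ _ => _root_.inf_le_left

theorem Le.inf_right (s t : Term X) : Le E (.inf s t) t := fun _ _ _ _ => _root_.inf_le_right

theorem Le.sup_le {s t r : Term X} (h1 : Le E s r) (h2 : Le E t r) : Le E (.sup s t) r :=
  fun L _ hL f => _root_.sup_le (h1 L hL f) (h2 L hL f)

theorem Le.le_inf {s t r : Term X} (h1 : Le E r s) (h2 : Le E r t) : Le E r (.inf s t) :=
  fun L _ hL f => _root_.le_inf (h1 L hL f) (h2 L hL f)

noncomputable instance : Lattice (FL E X) where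
  sup a b := cl E (.sup (rep a) (rep b))
  inf a b := cl E (.inf (rep a) (rep b))
  le_sup_left a b := by
    rw [← rep_le]
    exact (Le.sup_left _ _).trans (le_rep_cl _)
  le_sup_right a b := by
    rw [← rep_le]
    exact (Le.sup_right _ _).trans (le_rep_cl _)
  sup_le a b c h1 h2 := by
    rw [← rep_le] at h1 h2 ⊢
    exact (rep_cl_le _).trans (Le.sup_le h1 h2)
  inf_le_left a b := by
    rw [← rep_le]
    exact (rep_cl_le _).trans (Le.inf_left _ _)
  inf_le_right a b := by
    rw [← rep_le]
    exact (rep_cl_le _).trans (Le.inf_right _ _)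
  le_inf a b c h1 h2 := by
    rw [← rep_le] at h1 h2 ⊢
    exact (Le.le_inf h1 h2).trans (le_rep_cl _)

theorem cl_sup (s t : Term X) : cl E (.sup s t) = cl E s ⊔ cl E t := by
  apply le_antisymm
  · change cl E _ ≤ cl E (.sup (rep (cl E s)) (rep (cl E t)))
    exact cl_le.2 (Le.sup_le ((le_rep_cl s).trans (Le.sup_left _ _))
      ((le_rep_cl t).trans (Le.sup_right _ _)))
  · exact sup_le (cl_le.2 (Le.sup_left _ _)) (cl_le.2 (Le.sup_right _ _))

theorem cl_inf (s t : Term X) : cl E (.inf s t) = cl E s ⊓ cl E t := by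
  apply le_antisymm
  · exact le_inf (cl_le.2 (Le.inf_left _ _)) (cl_le.2 (Le.inf_right _ _))
  · change cl E (.inf (rep (cl E s)) (rep (cl E t))) ≤ cl E _
    exact cl_le.2 (Le.le_inf ((Le.inf_left _ _).trans (rep_cl_le s))
      ((Le.inf_right _ _).trans (rep_cl_le t)))

theorem ev_rep {L : Type w} [Lattice L] (hL : Satisfies E L) (f : X → L) (t : Term X) :
    Term.ev f (rep (cl E t)) = Term.ev f t :=
  le_antisymm (rep_cl_le t L hL f) (le_rep_cl t L hL f)

/-- The extension of a map to a homomorphism. -/
noncomputable def lift {L : Type w} [Lattice L] (hL : Satisfies E L) (f : X → L) :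
    LatticeHom (FL E X) L where
  toFun a := Term.ev f (rep a)
  map_sup' a b := by
    change Term.ev f (rep (cl E (.sup (rep a) (rep b)))) = _
    rw [ev_rep hL]; rfl
  map_inf' a b := by
    change Term.ev f (rep (cl E (.inf (rep a) (rep b)))) = _
    rw [ev_rep hL]; rfl

theorem lift_var {L : Type w} [Lattice L] (hL : Satisfies E L) (f : X → L) (x : X) :
    lift hL f (cl E (.var x)) = f x := by
  change Term.ev f (rep (cl E (.var x))) = _
  rw [ev_rep hL]; rfl

/-- Substitution of terms for the variables. -/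
def bind (r : ℕ → Term X) : Term.{0} ℕ → Term X
  | .var n => r n
  | .sup s t => .sup (bind r s) (bind r t)
  | .inf s t => .inf (bind r s) (bind r t)

theorem ev_bind {L : Type w} [Lattice L] (g : X → L) (r : ℕ → Term X) (t : Term.{0} ℕ) :
    Term.ev g (bind r t) = Term.ev (fun n => Term.ev g (r n)) t := by
  induction t with
  | var n => rfl
  | sup s t hs ht =>
    change Term.ev g (bind r s) ⊔ Term.ev g (bind r t) = _
    rw [hs, ht]; rfl
  | inf s t hs ht =>
    change Term.ev g (bind r s) ⊓ Term.ev g (bind r t) = _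
    rw [hs, ht]; rfl

theorem ev_cl (r : ℕ → Term X) (t : Term.{0} ℕ) :
    Term.ev (fun n => cl E (r n)) t = cl E (bind r t) := by
  induction t with
  | var n => rfl
  | sup s t hs ht =>
    change Term.ev _ s ⊔ Term.ev _ t = cl E (.sup (bind r s) (bind r t))
    rw [cl_sup, hs, ht]
  | inf s t hs ht =>
    change Term.ev _ s ⊓ Term.ev _ t = cl E (.inf (bind r s) (bind r t))
    rw [cl_inf, hs, ht]

theorem satisfies_FL (E : Set (Term.{0} ℕ × Term.{0} ℕ)) (X : Type w) :
    Satisfies E (FL E X) := by
  intro e he f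
  have hf : f = fun n => cl E (rep (f n)) := by
    funext n; rw [cl_rep]
  rw [hf, ev_cl, ev_cl]
  apply le_antisymm
  · refine cl_le.2 ?_
    intro L _ hL g
    rw [ev_bind, ev_bind]
    exact (hL e he _).le
  · refine cl_le.2 ?_
    intro L _ hL g
    rw [ev_bind, ev_bind]
    exact (hL e he _).ge

/-- Free lattices exist in every variety of lattices. -/
theorem ex : t_EX.{w} := by
  intro E X
  refine ⟨FL E X, inferInstance, fun x => cl E (.var x), satisfies_FL E X, ?_, ?_⟩
  · intro S hS a
    obtain ⟨t, rfl⟩ := cl_surj a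
    induction t with
    | var x => exact hS x
    | sup s t hs ht => rw [cl_sup]; exact S.supClosed hs ht
    | inf s t hs ht => rw [cl_inf]; exact S.infClosed hs ht
  · intro L _ hL f
    exact ⟨lift hL f, lift_var hL f⟩

end Pool.Agent.Y765.FV
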